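import Pool.Agent.Q65.OD.PF2

/-! Project OD (helper40), job OD-41: certificate for a family without degenerate members. -/

set_option autoImplicit false

namespace Pool.Agent.Q65.OD

open Pool.Agent.TH214.RM Pool.Agent.Q40.OD MvPolynomial NumberField

/-- Denominators. -/
theorem denom {R K B C' : Type} [CommRing R] [IsDomain R] [Field K] [CommRing B] [CommRing C']
    (φ : B →+* C') (i : R →+* B) (hden : ∀ x : C', ∃ m : R, m ≠ 0 ∧ ∃ b : B, φ b = φ (i m) * x)
    (J : Ideal B) (h : J.map φ = ⊤) : ∃ m : R, m ≠ 0 ∧ ∃ y ∈ J, φ y = φ (i m) := by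
  have key : ∀ x ∈ J.map φ, ∃ m : R, m ≠ 0 ∧ ∃ y ∈ J, φ y = φ (i m) * x := by
    intro x hx
    unfold Ideal.map at hx
    induction hx using Submodule.span_induction with
    | mem x hx =>
      obtain ⟨y, hy, rfl⟩ := hx
      exact ⟨1, one_ne_zero, y, hy, by rw [map_one, map_one, one_mul]⟩
    | zero => exact ⟨1, one_ne_zero, 0, J.zero_mem, by rw [map_zero, mul_zero]⟩
    | add a b _ _ ha hb =>
      obtain ⟨m1, h1, y1, hy1, e1⟩ := ha
      obtain ⟨m2, h2, y2, hy2, e2⟩ := hb
      refine ⟨m1 * m2, mul_ne_zero h1 h2, i m2 * y1 + i m1 * y2,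
        J.add_mem (J.mul_mem_left _ hy1) (J.mul_mem_left _ hy2), ?_⟩
      simp only [map_add, map_mul, e1, e2]
      ring
    | smul a b _ hb =>
      obtain ⟨m1, h1, y1, hy1, e1⟩ := hb
      obtain ⟨m2, h2, a', e2⟩ := hden a
      refine ⟨m1 * m2, mul_ne_zero h1 h2, a' * y1, J.mul_mem_left _ hy1, ?_⟩
      simp only [map_mul, e1, e2, smul_eq_mul]
      ring
  obtain ⟨m, hm, y, hy, e⟩ := key 1 (by rw [h]; trivial)
  exact ⟨m, hm, y, hy, by rw [e, mul_one]⟩

/-- Nullstellensatz: an ideal of a finitely generated `K`-algebra without points over the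
algebraic closure is the unit ideal. -/
theorem null {K C' : Type} [Field K] [CommRing C'] [Algebra K C'] [Algebra.FiniteType K C']
    (I : Ideal C') (h : ∀ ψ : C' →ₐ[K] AlgebraicClosure K, ∃ x ∈ I, ψ x ≠ 0) : I = ⊤ := by
  by_contra hI
  obtain ⟨m, hm, hIm⟩ := Ideal.exists_le_maximal I hI
  let _ : Field (C' ⧸ m) := Ideal.Quotient.field m
  have h1 : Algebra.FiniteType K (C' ⧸ m) :=
    Algebra.FiniteType.of_surjective (Ideal.Quotient.mkₐ K m) (Ideal.Quotient.mkₐ_surjective K m)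
  have h2 : Module.Finite K (C' ⧸ m) := finite_of_finite_type_of_isJacobsonRing K (C' ⧸ m)
  have h3 : Algebra.IsAlgebraic K (C' ⧸ m) := Algebra.IsAlgebraic.of_finite K (C' ⧸ m)
  obtain ⟨x, hx, hx0⟩ := h ((IsAlgClosed.lift (M := AlgebraicClosure K)).comp (Ideal.Quotient.mkₐ K m))
  apply hx0
  rw [AlgHom.comp_apply, Ideal.Quotient.mkₐ_eq_mk, Ideal.Quotient.eq_zero_iff_mem.2 (hIm hx),
    map_zero]

/-- The generic member on the chart `i` of the parameter line. -/
noncomputable def pt (A : Type) [CommRing A] (i : Fin 2) : Fin 2 → Polynomial A :=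
  fun j => if j = i then 1 else Polynomial.X

/-- The equations of the degenerate points. -/
noncomputable def eqs {R A : Type} [CommRing R] [CommRing A] [Algebra R A] (n d : ℕ)
    (c : Ix n d → MvPolynomial (Fin 2) R) (v : Fin 2 → A) (s : Fin (n + 2)) :
    Set (MvPolynomial {j : Fin (n + 2) // j ≠ s} A) :=
  insert (deh s (Fam n d c v)) (insert (Hess (deh s (Fam n d c v))).det
    (Set.range fun b => pderiv b (deh s (Fam n d c v))))

section ident

variable {R A κ : Type} [CommRing R] [CommRing A] [CommRing κ] [Algebra R A] [Algebra R κ] {n d : ℕ}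
  (c : Ix n d → MvPolynomial (Fin 2) R) (v : Fin 2 → A) {s : Fin (n + 2)}
  (χ : MvPolynomial {j : Fin (n + 2) // j ≠ s} A →+* κ)
  (hχ : (χ.comp C).comp (algebraMap R A) = algebraMap R κ)

theorem ev_map (x : MvPolynomial {j : Fin (n + 2) // j ≠ s} A) :
    eval (fun j => χ (X j)) (map (χ.comp C) x) = χ x := by
  have h3 : (eval (fun j => χ (X j))).comp (map (χ.comp C)) = χ := by
    refine ringHom_ext (fun r => ?_) fun i => ?_
    · rw [RingHom.comp_apply, map_C, eval_C]
      rfl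
    · rw [RingHom.comp_apply, map_X, eval_X]
  exact RingHom.congr_fun h3 x

include hχ in
theorem ident : eval (fun j => χ (X j)) (deh s (Fam n d c fun i => χ (C (v i)))) =
      χ (deh s (Fam n d c v)) ∧
    (∀ b, eval (fun j => χ (X j)) (pderiv b (deh s (Fam n d c fun i => χ (C (v i))))) =
      χ (pderiv b (deh s (Fam n d c v)))) ∧
    ((Hess (deh s (Fam n d c fun i => χ (C (v i))))).map (eval fun j => χ (X j))).det =
      χ (Hess (deh s (Fam n d c v))).det := by
  have h2 : Fam n d c (fun i => χ (C (v i))) = map (χ.comp C) (Fam n d c v) :=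
    (map_Fam (R := R) (χ.comp C) hχ n d c v).symm
  rw [h2, ← map_deh]
  refine ⟨ev_map χ _, fun b => ?_, ?_⟩
  · rw [pderiv_map, ev_map]
  · rw [Hess_map, Matrix.map_map]
    have h4 : (Hess (deh s (Fam n d c v))).map ((eval fun j => χ (X j)) ∘ (map (χ.comp C))) =
        (Hess (deh s (Fam n d c v))).map χ := by
      ext a b
      rw [Matrix.map_apply, Matrix.map_apply, Function.comp_apply, ev_map]
    rw [h4]
    have h5 := RingHom.map_det χ (Hess (deh s (Fam n d c v)))
    rw [RingHom.mapMatrix_apply] at h5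
    exact h5.symm

end ident

theorem transfer {R A κ : Type} [CommRing R] [CommRing A] [Field κ] [Algebra R A] [Algebra R κ]
    {n d : ℕ} (c : Ix n d → MvPolynomial (Fin 2) R) (v : Fin 2 → A) {s : Fin (n + 2)}
    (χ : MvPolynomial {j : Fin (n + 2) // j ≠ s} A →+* κ)
    (hχ : (χ.comp C).comp (algebraMap R A) = algebraMap R κ)
    (h : NdField (Fam n d c fun i => χ (C (v i)))) : ∃ y ∈ eqs n d c v s, χ y ≠ 0 := by
  by_contra hcon
  push Not at hcon
  obtain ⟨h1, h2, h3⟩ := ident c v χ hχ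
  refine h s (fun j => χ (X j)) ?_ (fun b => ?_) ?_
  · rw [h1]
    exact hcon _ (Set.mem_insert _ _)
  · rw [h2]
    exact hcon _ (Set.mem_insert_of_mem _ (Set.mem_insert_of_mem _ ⟨b, rfl⟩))
  · rw [h3]
    exact hcon _ (Set.mem_insert_of_mem _ (Set.mem_insert _ _))

theorem nd_smul {κ : Type} [Field κ] {n : ℕ} {G : MvPolynomial (Fin (n + 2)) κ} {μ : κ} (hμ : μ ≠ 0)
    (h : NdField G) : NdField (C μ * G) := by
  intro s P h1 h2
  have e0 : deh s (C μ * G) = C μ * deh s G := by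
    unfold deh
    rw [map_mul]
    congr 1
    exact aeval_C _ _
  rw [e0] at h1 h2 ⊢
  rw [map_mul, eval_C] at h1
  have h1' := (mul_eq_zero.1 h1).resolve_left hμ
  have h2' : ∀ b, eval P (pderiv b (deh s G)) = 0 := by
    intro b
    have h3 := h2 b
    rw [pderiv_C_mul, map_mul, eval_C] at h3
    exact (mul_eq_zero.1 h3).resolve_left hμ
  have h3 := h s P h1' h2'
  have e1 : Hess (C μ * deh s G) = (C μ : MvPolynomial {j : Fin (n + 2) // j ≠ s} κ) • Hess (deh s G) := by
    ext1 a b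
    unfold Hess
    rw [Matrix.smul_apply, Matrix.of_apply, Matrix.of_apply, pderiv_C_mul, pderiv_C_mul, smul_eq_mul]
  have e2 : ((C μ : MvPolynomial {j : Fin (n + 2) // j ≠ s} κ) • Hess (deh s G)).map (eval P) =
      μ • (Hess (deh s G)).map (eval P) := by
    ext a b
    rw [Matrix.map_apply, Matrix.smul_apply, Matrix.smul_apply, Matrix.map_apply, smul_eq_mul,
      map_mul, eval_C, smul_eq_mul]
  rw [e1, e2, Matrix.det_smul]
  exact mul_ne_zero (pow_ne_zero _ hμ) h3

/-- Denominators of polynomials. -/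
theorem den_poly {R K : Type} [CommRing R] [IsDomain R] [Field K] [Algebra R K] [IsFractionRing R K]
    {τ : Type} (x : MvPolynomial τ (Polynomial K)) : ∃ m : R, m ≠ 0 ∧ ∃ b : MvPolynomial τ (Polynomial R),
      map (Polynomial.mapRingHom (algebraMap R K)) b =
        map (Polynomial.mapRingHom (algebraMap R K)) ((C.comp Polynomial.C) m) * x := by
  obtain ⟨φ, hφ⟩ : ∃ φ, φ = (map (Polynomial.mapRingHom (algebraMap R K)) :
    MvPolynomial τ (Polynomial R) →+* MvPolynomial τ (Polynomial K)) := ⟨_, rfl⟩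
  obtain ⟨i, hi⟩ : ∃ i, i = ((C.comp Polynomial.C) : R →+* MvPolynomial τ (Polynomial R)) := ⟨_, rfl⟩
  rw [← hφ, ← hi]
  have hadd : ∀ x y : MvPolynomial τ (Polynomial K), (∃ m : R, m ≠ 0 ∧ ∃ b, φ b = φ (i m) * x) →
      (∃ m : R, m ≠ 0 ∧ ∃ b, φ b = φ (i m) * y) → ∃ m : R, m ≠ 0 ∧ ∃ b, φ b = φ (i m) * (x + y) := by
    rintro x y ⟨m1, h1, b1, e1⟩ ⟨m2, h2, b2, e2⟩
    refine ⟨m1 * m2, mul_ne_zero h1 h2, i m2 * b1 + i m1 * b2, ?_⟩
    simp only [map_add, map_mul, e1, e2]
    ring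
  have hmul : ∀ x y : MvPolynomial τ (Polynomial K), (∃ m : R, m ≠ 0 ∧ ∃ b, φ b = φ (i m) * x) →
      (∃ m : R, m ≠ 0 ∧ ∃ b, φ b = φ (i m) * y) → ∃ m : R, m ≠ 0 ∧ ∃ b, φ b = φ (i m) * (x * y) := by
    rintro x y ⟨m1, h1, b1, e1⟩ ⟨m2, h2, b2, e2⟩
    refine ⟨m1 * m2, mul_ne_zero h1 h2, b1 * b2, ?_⟩
    simp only [map_mul, e1, e2]
    ring
  have hφb : ∀ x : MvPolynomial τ (Polynomial K), (∃ b, φ b = x) →
      ∃ m : R, m ≠ 0 ∧ ∃ b, φ b = φ (i m) * x := by
    rintro x ⟨b, rfl⟩
    exact ⟨1, one_ne_zero, b, by rw [map_one, map_one, one_mul]⟩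
  have hC : ∀ p : Polynomial K, ∃ m : R, m ≠ 0 ∧ ∃ b, φ b = φ (i m) * C p := by
    intro p
    induction p using Polynomial.induction_on' with
    | add p q hp hq => rw [C_add]; exact hadd _ _ hp hq
    | monomial k a =>
      rw [← Polynomial.C_mul_X_pow_eq_monomial, C_mul]
      refine hmul _ _ ?_ (hφb _ ⟨C (Polynomial.X ^ k), ?_⟩)
      · obtain ⟨⟨r, m⟩, h⟩ := IsLocalization.surj (nonZeroDivisors R) a
        refine ⟨m, nonZeroDivisors.ne_zero m.2, C (Polynomial.C r), ?_⟩
        rw [hφ, hi]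
        simp only [map_C, RingHom.comp_apply, Polynomial.coe_mapRingHom, Polynomial.map_C]
        rw [← C_mul, ← Polynomial.C_mul, ← h, mul_comm a]
      · rw [hφ, map_C]
        simp
  induction x using MvPolynomial.induction_on with
  | C p => exact hC p
  | add p q hp hq => exact hadd _ _ hp hq
  | mul_X p j hp => exact hmul _ _ hp (hφb _ ⟨X j, by rw [hφ, map_X]⟩)

/-- Lifting polynomials with integral coefficients. -/
theorem lift_poly {R K σ : Type} [CommRing R] [Field K] [Algebra R K] (q : MvPolynomial σ K)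
    (h : ∀ m, ∃ r : R, algebraMap R K r = coeff m q) :
    ∃ p : MvPolynomial σ R, map (algebraMap R K) p = q := by
  choose f hf using h
  refine ⟨∑ m ∈ q.support, monomial m (f m), ?_⟩
  rw [map_sum]
  conv_rhs => rw [q.as_sum]
  refine Finset.sum_congr rfl fun m _ => ?_
  rw [map_monomial, hf]

/-- A common denominator. -/
theorem common {K : Type} [Field K] [NumberField K] {σ ι : Type} [Finite ι]
    (c : ι → MvPolynomial σ K) : ∃ (D : ℕ) (c₁ : ι → MvPolynomial σ (𝓞 K)), D ≠ 0 ∧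
      ∀ α, map (algebraMap (𝓞 K) K) (c₁ α) = C (D : K) * c α := by
  classical
  have := Fintype.ofFinite ι
  obtain ⟨b, hb⟩ := IsLocalization.exist_integer_multiples_of_finset (nonZeroDivisors (𝓞 K))
    (Finset.univ.biUnion fun α : ι => (c α).support.image fun m => coeff m (c α))
  have hb0 : (b : 𝓞 K) ≠ 0 := nonZeroDivisors.ne_zero b.2
  obtain ⟨D, hD⟩ : ∃ D : ℕ, D = Ideal.absNorm (Ideal.span {(b : 𝓞 K)}) := ⟨_, rfl⟩
  have hD0 : D ≠ 0 := by
    rw [hD]
    rw [Ne, Ideal.absNorm_eq_zero_iff, Ideal.span_singleton_eq_bot]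
    exact hb0
  have hDb : (b : 𝓞 K) ∣ (D : 𝓞 K) := by
    rw [← Ideal.mem_span_singleton, hD]
    exact Ideal.absNorm_mem _
  obtain ⟨b', hb'⟩ := hDb
  have key : ∀ α, ∃ p : MvPolynomial σ (𝓞 K), map (algebraMap (𝓞 K) K) p = C (D : K) * c α := by
    intro α
    refine lift_poly _ fun m => ?_
    rw [coeff_C_mul]
    by_cases hm : coeff m (c α) = 0
    · exact ⟨0, by rw [hm, mul_zero, map_zero]⟩
    · obtain ⟨r, hr⟩ := hb (coeff m (c α)) (by
        rw [Finset.mem_biUnion]
        refine ⟨α, Finset.mem_univ _, ?_⟩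
        rw [Finset.mem_image]
        exact ⟨m, mem_support_iff.2 hm, rfl⟩)
      refine ⟨b' * r, ?_⟩
      rw [map_mul, hr]
      have e1 : (D : K) = algebraMap (𝓞 K) K (D : 𝓞 K) := (map_natCast _ D).symm
      rw [e1, hb', map_mul, Algebra.smul_def]
      ring
  choose c₁ hc₁ using key
  exact ⟨D, c₁, hD0, hc₁⟩

theorem pf1 : S_PF1 := by
  intro K _ _ n d e c hc hnd
  obtain ⟨D, c₁, hD, hc₁⟩ := common c
  have hinj : Function.Injective (algebraMap (𝓞 K) K) := IsFractionRing.injective (𝓞 K) K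
  have hDK : (D : K) ≠ 0 := Nat.cast_ne_zero.2 hD
  have hhom : ∀ α, (c₁ α).IsHomogeneous e := by
    intro α m hm
    refine hc α (d := m) ?_
    intro h0
    apply hm
    apply hinj
    rw [← coeff_map, hc₁, coeff_C_mul, h0, mul_zero, map_zero]
  -- the members of the family over the algebraic closure
  have hnd₁ : ∀ v : Fin 2 → AlgebraicClosure K, v ≠ 0 → NdField (Fam n d c₁ v) := by
    intro v hv
    have h1 : Fam n d c₁ v = C (algebraMap K (AlgebraicClosure K) D) * Fam n d c v := by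
      unfold Fam form
      rw [Finset.mul_sum]
      refine Finset.sum_congr rfl fun α _ => ?_
      rw [C_mul_monomial]
      congr 1
      show aeval v (c₁ α) = algebraMap K (AlgebraicClosure K) D * aeval v (c α)
      have h2 : aeval v (c₁ α) = aeval v (map (algebraMap (𝓞 K) K) (c₁ α)) := by
        rw [aeval_map_algebraMap]
      rw [h2, hc₁, map_mul, aeval_C]
    rw [h1]
    exact nd_smul (by
      rw [Ne, map_eq_zero_iff _ (algebraMap K (AlgebraicClosure K)).injective]
      exact hDK) (hnd v hv)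
  -- the certificates
  have cert : ∀ (i : Fin 2) (s : Fin (n + 2)), ∃ M : ℕ, M ≠ 0 ∧
      ((M : ℕ) : MvPolynomial {j : Fin (n + 2) // j ≠ s} (Polynomial (𝓞 K))) ∈
        Ideal.span (eqs n d c₁ (pt (𝓞 K) i) s) := by
    intro i s
    obtain ⟨φ, hφ⟩ : ∃ φ, φ = (map (Polynomial.mapRingHom (algebraMap (𝓞 K) K)) :
      MvPolynomial {j : Fin (n + 2) // j ≠ s} (Polynomial (𝓞 K)) →+*
        MvPolynomial {j : Fin (n + 2) // j ≠ s} (Polynomial K)) := ⟨_, rfl⟩
    have hφinj : Function.Injective φ := by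
      rw [hφ]
      exact map_injective _ (Polynomial.map_injective _ hinj)
    have htop : (Ideal.span (eqs n d c₁ (pt (𝓞 K) i) s)).map φ = ⊤ := by
      refine null (K := K) _ fun ψ => ?_
      obtain ⟨χ, hχ⟩ : ∃ χ : MvPolynomial {j : Fin (n + 2) // j ≠ s} (Polynomial (𝓞 K)) →+*
        AlgebraicClosure K, χ = ψ.toRingHom.comp φ := ⟨_, rfl⟩
      have q1 : ((χ.comp C).comp (algebraMap (𝓞 K) (Polynomial (𝓞 K)))) =
          algebraMap (𝓞 K) (AlgebraicClosure K) := by
        rw [hχ, hφ]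
        ext r
        have h1 : ψ (algebraMap K _ (algebraMap (𝓞 K) K r)) =
          algebraMap K (AlgebraicClosure K) (algebraMap (𝓞 K) K r) := ψ.commutes _
        rw [← IsScalarTower.algebraMap_apply (𝓞 K) K (AlgebraicClosure K)] at h1
        rw [← h1]
        simp
      have q2 : NdField (Fam n d c₁ fun j => χ (C (pt (𝓞 K) i j))) := by
        refine hnd₁ _ ?_
        intro h
        have := congrFun h i
        simp [pt] at this
      obtain ⟨y, hy, hy0⟩ := transfer c₁ (pt (𝓞 K) i) χ q1 q2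
      refine ⟨φ y, Ideal.mem_map_of_mem _ (Ideal.subset_span hy), ?_⟩
      rw [hχ] at hy0
      exact hy0
    obtain ⟨iR, hiR⟩ : ∃ iR : 𝓞 K →+* MvPolynomial {j : Fin (n + 2) // j ≠ s} (Polynomial (𝓞 K)),
      iR = C.comp Polynomial.C := ⟨_, rfl⟩
    have hden : ∀ x : MvPolynomial {j : Fin (n + 2) // j ≠ s} (Polynomial K), ∃ m : 𝓞 K, m ≠ 0 ∧
        ∃ b, φ b = φ (iR m) * x := by
      intro x
      obtain ⟨m, hm, b, hb⟩ := den_poly (R := 𝓞 K) x
      refine ⟨m, hm, b, ?_⟩
      rw [hφ, hiR]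
      exact hb
    obtain ⟨m, hm, y, hy, e1⟩ := denom (K := K) φ iR hden _ htop
    have e2 := hφinj e1
    refine ⟨Ideal.absNorm (Ideal.span {m}), ?_, ?_⟩
    · rw [Ne, Ideal.absNorm_eq_zero_iff, Ideal.span_singleton_eq_bot]
      exact hm
    · have h1 : (Ideal.absNorm (Ideal.span {m}) : 𝓞 K) ∈ Ideal.span {m} := Ideal.absNorm_mem _
      rw [Ideal.mem_span_singleton] at h1
      obtain ⟨b, hb⟩ := h1
      have h2 : ((Ideal.absNorm (Ideal.span {m}) : ℕ) :
          MvPolynomial {j : Fin (n + 2) // j ≠ s} (Polynomial (𝓞 K))) =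
          iR ((Ideal.absNorm (Ideal.span {m}) : ℕ) : 𝓞 K) :=
        (map_natCast _ _).symm
      rw [h2, hb, map_mul, ← e2]
      exact Ideal.mul_mem_right _ _ hy
  choose M hM0 hM using cert
  obtain ⟨W, hW⟩ : ∃ W : ℕ, W = ∏ i, ∏ s, M i s := ⟨_, rfl⟩
  have hW0 : W ≠ 0 := by
    rw [hW]
    exact Finset.prod_ne_zero_iff.2 fun i _ => Finset.prod_ne_zero_iff.2 fun s _ => hM0 i s
  refine ⟨D * W, fun α => C ((W : ℕ) : 𝓞 K) * c₁ α, mul_ne_zero hD hW0, ?_, ?_, ?_⟩
  · intro α
    have h1 := (isHomogeneous_C (Fin 2) ((W : ℕ) : 𝓞 K)).mul (hhom α)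
    rwa [zero_add] at h1
  · intro α
    rw [map_mul, map_C, hc₁, map_natCast, ← mul_assoc, ← C_mul]
    congr 2
    push_cast
    ring
  · intro κ _ _ hN v hv
    obtain ⟨i, hi⟩ : ∃ i, v i ≠ 0 := by
      by_contra hcon
      push Not at hcon
      exact hv (funext hcon)
    obtain ⟨t, ht⟩ : ∃ t : κ, ∀ j, v j = (if j = i then 1 else t) * v i := by
      fin_cases i
      · refine ⟨v 1 / v 0, fun j => ?_⟩
        fin_cases j
        · simp
        · have : v 0 ≠ 0 := hi
          simp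
          field_simp
      · refine ⟨v 0 / v 1, fun j => ?_⟩
        fin_cases j
        · have : v 1 ≠ 0 := hi
          simp
          field_simp
        · simp
    have hNW : (W : κ) ≠ 0 := by
      intro h
      apply hN
      push_cast
      rw [h, mul_zero]
    have hMi : ∀ s, (M i s : κ) ≠ 0 := by
      intro s h
      apply hNW
      rw [hW]
      push_cast
      exact Finset.prod_eq_zero (Finset.mem_univ i) (Finset.prod_eq_zero (Finset.mem_univ s) h)
    have h1 : Fam n d (fun α => C ((W : ℕ) : 𝓞 K) * c₁ α) v =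
        C ((W : κ) * v i ^ e) * Fam n d c₁ fun j => if j = i then 1 else t := by
      unfold Fam form
      rw [Finset.mul_sum]
      refine Finset.sum_congr rfl fun α _ => ?_
      rw [C_mul_monomial]
      congr 1
      have h2 : v = fun j => (if j = i then 1 else t) * v i := funext ht
      show aeval v (C ((W : ℕ) : 𝓞 K) * c₁ α) =
        (W : κ) * v i ^ e * aeval (fun j => if j = i then 1 else t) (c₁ α)
      rw [map_mul, aeval_C, map_natCast]
      conv_lhs => rw [h2]
      rw [aeval_scale _ _ e _ (hhom α)]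
      ring
    rw [h1]
    refine nd_smul (mul_ne_zero hNW (pow_ne_zero _ hi)) ?_
    intro s P q1 q2 q3
    let χ : MvPolynomial {j : Fin (n + 2) // j ≠ s} (Polynomial (𝓞 K)) →+* κ :=
      eval₂Hom (Polynomial.eval₂RingHom (algebraMap (𝓞 K) κ) t) P
    have hχ : (χ.comp C).comp (algebraMap (𝓞 K) (Polynomial (𝓞 K))) = algebraMap (𝓞 K) κ := by
      ext r
      simp [χ]
    obtain ⟨k1, k2, k3⟩ := ident c₁ (pt (𝓞 K) i) χ hχ
    have e1 : (fun j => χ (C (pt (𝓞 K) i j))) = fun j => if j = i then (1 : κ) else t := by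
      funext j
      unfold pt
      split_ifs <;> simp [χ]
    have e2 : (fun j => χ (X j)) = P := by
      funext j
      simp [χ]
    rw [e1, e2] at k1 k2 k3
    rw [k1] at q1
    rw [k3] at q3
    have hker : Ideal.span (eqs n d c₁ (pt (𝓞 K) i) s) ≤ RingHom.ker χ := by
      refine Ideal.span_le.2 ?_
      rintro y (rfl | rfl | ⟨b, rfl⟩)
      · exact q1
      · exact q3
      · exact (k2 b).symm.trans (q2 b)
    have h3 := hker (hM i s)
    rw [RingHom.mem_ker, map_natCast] at h3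
    exact hMi s h3

end Pool.Agent.Q65.OD
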