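import Pool.Agent.Q40.OD.Stm3

/-! Project OD (helper40), job OD-42: the members of the family over a Dedekind domain. -/

set_option autoImplicit false

namespace Pool.Agent.Q65.OD

open Pool.Agent.TH214.RM Pool.Agent.Q40.OD MvPolynomial
open scoped nonZeroDivisors

/-- A primitive representative at the prime `𝔭`. -/
theorem prim {O L : Type} [CommRing O] [IsDedekindDomain O] [Field L] [Algebra O L]
    [IsFractionRing O L] (𝔭 : Ideal O) (hp : 𝔭.IsPrime) (v : Fin 2 → L) (hv : v ≠ 0) :
    ∃ (l : L) (w : Fin 2 → O), l ≠ 0 ∧ (∀ i, algebraMap O L (w i) = v i * l) ∧ ∃ i, w i ∉ 𝔭 := by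
  obtain ⟨I, hI⟩ : ∃ I : FractionalIdeal O⁰ L, I =
    FractionalIdeal.spanSingleton O⁰ (v 0) + FractionalIdeal.spanSingleton O⁰ (v 1) := ⟨_, rfl⟩
  have hvI : ∀ i, v i ∈ I := by
    intro i
    rw [hI]
    fin_cases i
    · exact (FractionalIdeal.mem_add _ _ _).2 ⟨v 0, FractionalIdeal.mem_spanSingleton_self _ _, 0,
        FractionalIdeal.zero_mem _, add_zero _⟩
    · exact (FractionalIdeal.mem_add _ _ _).2 ⟨0, FractionalIdeal.zero_mem _, v 1,
        FractionalIdeal.mem_spanSingleton_self _ _, zero_add _⟩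
  have hI0 : I ≠ 0 := by
    intro h
    apply hv
    funext i
    have := hvI i
    rw [h, FractionalIdeal.mem_zero_iff] at this
    exact this
  have hnot : ¬ (I⁻¹ ≤ (𝔭 : FractionalIdeal O⁰ L) * I⁻¹) := by
    intro h
    have h1 : I⁻¹ * I ≤ (𝔭 : FractionalIdeal O⁰ L) * I⁻¹ * I := mul_le_mul_left h I
    rw [mul_assoc, inv_mul_cancel₀ hI0, mul_one] at h1
    have h2 : (1 : L) ∈ (𝔭 : FractionalIdeal O⁰ L) := h1 (FractionalIdeal.one_mem_one _)
    rw [FractionalIdeal.mem_coeIdeal] at h2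
    obtain ⟨x, hx, hx1⟩ := h2
    have h3 : x = 1 := by
      apply IsFractionRing.injective O L
      rw [hx1, map_one]
    rw [h3] at hx
    exact hp.ne_top ((Ideal.eq_top_iff_one _).2 hx)
  obtain ⟨l, hl, hl2⟩ := SetLike.not_le_iff_exists.1 hnot
  have hw : ∀ i, ∃ w : O, algebraMap O L w = v i * l := by
    intro i
    have h1 : v i * l ∈ I * I⁻¹ := FractionalIdeal.mul_mem_mul (hvI i) hl
    rw [mul_inv_cancel₀ hI0] at h1
    exact (FractionalIdeal.mem_one_iff _).1 h1
  choose w hw using hw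
  refine ⟨l, w, ?_, hw, ?_⟩
  · rintro rfl
    exact hl2 (FractionalIdeal.zero_mem _)
  · by_contra hcon
    push Not at hcon
    apply hl2
    have h1 : FractionalIdeal.spanSingleton O⁰ l * I ≤ (𝔭 : FractionalIdeal O⁰ L) := by
      rw [hI, mul_add, FractionalIdeal.spanSingleton_mul_spanSingleton,
        FractionalIdeal.spanSingleton_mul_spanSingleton]
      refine sup_le ?_ ?_
      · rw [FractionalIdeal.spanSingleton_le_iff_mem, FractionalIdeal.mem_coeIdeal]
        exact ⟨w 0, hcon 0, by rw [hw, mul_comm]⟩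
      · rw [FractionalIdeal.spanSingleton_le_iff_mem, FractionalIdeal.mem_coeIdeal]
        exact ⟨w 1, hcon 1, by rw [hw, mul_comm]⟩
    have h2 : FractionalIdeal.spanSingleton O⁰ l * I * I⁻¹ ≤ (𝔭 : FractionalIdeal O⁰ L) * I⁻¹ :=
      mul_le_mul_left h1 _
    rw [mul_assoc, mul_inv_cancel₀ hI0, mul_one] at h2
    exact h2 (FractionalIdeal.mem_spanSingleton_self _ _)

theorem map_Fam {R A B : Type} [CommRing R] [CommRing A] [CommRing B] [Algebra R A] [Algebra R B]
    (φ : A →+* B) (hφ : φ.comp (algebraMap R A) = algebraMap R B) (n d : ℕ)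
    (c : Ix n d → MvPolynomial (Fin 2) R) (v : Fin 2 → A) :
    map φ (Fam n d c v) = Fam n d c fun i => φ (v i) := by
  unfold Fam form
  rw [map_sum]
  refine Finset.sum_congr rfl fun α _ => ?_
  rw [map_monomial]
  congr 1
  show φ (aeval v (c α)) = aeval (fun i => φ (v i)) (c α)
  rw [aeval_def, aeval_def, ← hφ]
  exact eval₂_comp_left φ (algebraMap R A) v (c α)

theorem Hess_map {R S σ : Type} [CommRing R] [CommRing S] (φ : R →+* S) (F : MvPolynomial σ R) :
    Hess (map φ F) = (Hess F).map (map φ) := by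
  ext1 a b
  unfold Hess
  rw [Matrix.map_apply, Matrix.of_apply, Matrix.of_apply, pderiv_map, pderiv_map]

theorem pf2 : S_PF2 := by
  intro A₀ O L _ _ _ _ _ _ _ _ _ n d e N hN c₀ hc hnd v hv 𝔭 hp hp0
  obtain ⟨l, w, hl, hw, i₀, hi₀⟩ := prim 𝔭 hp v hv
  refine ⟨Fam n d c₀ w, l ^ e, 1, 1, pow_ne_zero _ hl, one_mul _, ?_, Or.inr ?_⟩
  · have h1 : (aeval (R := L) fun i : Fin (n + 2) => ∑ j, C ((1 : Matrix (Fin (n + 2)) (Fin (n + 2)) L) i j) *
        (X j : MvPolynomial (Fin (n + 2)) L)) = AlgHom.id L _ := by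
      ext i
      rw [aeval_X, AlgHom.id_apply]
      congr 1
      rw [Finset.sum_eq_single i]
      · rw [Matrix.one_apply_eq, C_1, one_mul]
      · intro b _ hb
        rw [Matrix.one_apply_ne hb.symm, C_0, zero_mul]
      · simp
    rw [h1, AlgHom.id_apply]
    unfold Fam form
    rw [map_sum, Finset.mul_sum]
    refine Finset.sum_congr rfl fun α _ => ?_
    rw [map_monomial, C_mul_monomial]
    congr 1
    have h2 : algebraMap O L (aeval w (c₀ α)) = aeval (fun i => v i * l) (c₀ α) := by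
      have h3 : (fun i => v i * l) = fun i => algebraMap O L (w i) := by
        funext i
        rw [hw]
      rw [h3, aeval_def, aeval_def, IsScalarTower.algebraMap_eq A₀ O L]
      exact eval₂_comp_left (algebraMap O L) (algebraMap A₀ O) w (c₀ α)
    rw [h2, aeval_scale v l e (c₀ α) (hc α), mul_comm]
  · intro s Q hQ hQp hf hd hdet
    have hdom : IsDomain (MvPolynomial {j : Fin (n + 2) // j ≠ s} O ⧸ Q) :=
      Ideal.Quotient.isDomain Q
    let ψ : MvPolynomial {j : Fin (n + 2) // j ≠ s} O →+*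
        FractionRing (MvPolynomial {j : Fin (n + 2) // j ≠ s} O ⧸ Q) :=
      (algebraMap (MvPolynomial {j : Fin (n + 2) // j ≠ s} O ⧸ Q)
        (FractionRing (MvPolynomial {j : Fin (n + 2) // j ≠ s} O ⧸ Q))).comp (Ideal.Quotient.mk Q)
    have hψ : ∀ x, ψ x = 0 ↔ x ∈ Q := by
      intro x
      change algebraMap (MvPolynomial {j : Fin (n + 2) // j ≠ s} O ⧸ Q)
        (FractionRing (MvPolynomial {j : Fin (n + 2) // j ≠ s} O ⧸ Q)) (Ideal.Quotient.mk Q x) = 0 ↔ x ∈ Q
      rw [map_eq_zero_iff _ (IsFractionRing.injective _ _), Ideal.Quotient.eq_zero_iff_mem]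
    let κ := FractionRing (MvPolynomial {j : Fin (n + 2) // j ≠ s} O ⧸ Q)
    let f : O →+* κ := ψ.comp C
    let alg : Algebra A₀ κ := (f.comp (algebraMap A₀ O)).toAlgebra
    have hNκ : ((N : ℕ) : κ) ≠ 0 := by
      have h1 : IsUnit (f (N : O)) := hN.map f
      rw [map_natCast] at h1
      exact h1.ne_zero
    have hv' : (fun i => f (w i)) ≠ (0 : Fin 2 → κ) := by
      intro h
      have h1 := congrFun h i₀
      have h2 : ψ (C (w i₀)) = 0 := h1
      rw [hψ, hQp] at h2
      exact hi₀ h2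
    have h1 := hnd κ hNκ (fun i => f (w i)) hv'
    have h2 : Fam n d c₀ (fun i => f (w i)) = map f (Fam n d c₀ w) := (map_Fam (R := A₀) f rfl n d c₀ w).symm
    have key : ∀ x : MvPolynomial {j : Fin (n + 2) // j ≠ s} O,
        eval (fun j => ψ (X j)) (map f x) = ψ x := by
      intro x
      have h3 : (eval (fun j => ψ (X j))).comp (map f) = ψ := by
        refine ringHom_ext (fun r => ?_) fun i => ?_
        · rw [RingHom.comp_apply, map_C, eval_C]
          rfl
        · rw [RingHom.comp_apply, map_X, eval_X]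
      exact RingHom.congr_fun h3 x
    rw [h2] at h1
    refine h1 s (fun j => ψ (X j)) ?_ ?_ ?_
    · rw [← map_deh, key, hψ]
      exact hf
    · intro b
      rw [← map_deh, pderiv_map, key, hψ]
      exact hd b
    · rw [← map_deh, Hess_map, Matrix.map_map]
      have h4 : (Hess (deh s (Fam n d c₀ w))).map ((eval fun j => ψ (X j)) ∘ (map f)) =
          (Hess (deh s (Fam n d c₀ w))).map ψ := by
        ext a b
        rw [Matrix.map_apply, Matrix.map_apply, Function.comp_apply, key]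
      rw [h4]
      have h5 := RingHom.map_det ψ (Hess (deh s (Fam n d c₀ w)))
      rw [RingHom.mapMatrix_apply] at h5
      rw [← h5, hψ]
      exact hdet

end Pool.Agent.Q65.OD
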